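import Pool.Agent.Q75.BS.Final

set_option autoImplicit false

/-!
# Billiards in almost every convex polygon: invariant functions continuous near the vertices

Let no angle of the convex polygon `P` be a rational multiple of `π`; this holds for almost every
polygon. Let `f` be a measurable function of the state which is invariant under the billiard flow.
Suppose that, for almost every direction `θ`, near each vertex `v` the function `f (·, θ)` agrees
almost everywhere with a function which is continuous off the line through `v` in the direction
`θ`, without any uniformity in `θ` except for the size of the neighbourhood. Then `f` is constant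
almost everywhere. So the billiard is ergodic if and only if all invariant functions have this
property.
-/

namespace Pool.Agent.Results.MP_7bc51d_an.ContinuousNearVertices

open Pool.Agent.W780 Pool.Agent.W780.BB Pool.Agent.W780.PG MeasureTheory Pool.Agent.TH103.BL
open Pool.Agent.Q75.BS

open scoped Real

theorem result (n : ℕ) :
    (∀ᵐ p : Fin (n + 3) → ℂ, IsConvexPolygon p → ∀ i, Irrational (ang p i / π)) ∧
    ∀ p : Fin (n + 3) → ℂ, IsConvexPolygon p → (∀ i, Irrational (ang p i / π)) →
      (∀ f : ℂ × ℝ → ℝ, Measurable f → IsInvariantFun p f → IsContinuousNearVertices p f →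
        ∃ c : ℝ, ∀ᵐ x : ℂ × ℝ, x.1 ∈ region p → f x = c) ∧
      ((∀ A : Set (ℂ × ℝ), MeasurableSet A → IsInvariant p A → IsTrivial p A) ↔
        ∀ f : ℂ × ℝ → ℝ, Measurable f → IsInvariantFun p f → IsContinuousNearVertices p f) :=
  ⟨ae_irrational n, fun _ hp hirr => ⟨fun _ hf hI h => const_of_cont hp hirr hf hI h,
    iff_ergodic hp hirr⟩⟩

end Pool.Agent.Results.MP_7bc51d_an.ContinuousNearVertices
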