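import Pool.Agent.Q75.BS.Final

set_option autoImplicit false

/-!
# Billiards in almost every convex polygon: invariant functions with a small directional modulus

Let no angle of the convex polygon `P` be a rational multiple of `π`; this holds for almost every
polygon. Let `f` be a measurable function of the state which is invariant under the billiard flow,
`q ≥ 1` and `ε > 0`. Suppose that near each vertex `v` the integral of `|f (z, θ + h) - f (z, θ)| ^ q`
over the states for which the line through `z` in the direction of the state does not sweep over
`v` when the direction is turned by `h` is `O (h ^ (1 + ε))`. Then `f` is constant almost everywhere.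
This covers functions which are Hölder continuous in the direction, with any exponent.
-/

namespace Pool.Agent.Results.MP_7bc51d_an.DirectionalModulus

open Pool.Agent.W780 Pool.Agent.W780.BB Pool.Agent.W780.PG MeasureTheory Pool.Agent.TH103.BL
open Pool.Agent.Q75.BS

open scoped Real

theorem result (n : ℕ) :
    (∀ᵐ p : Fin (n + 3) → ℂ, IsConvexPolygon p → ∀ i, Irrational (ang p i / π)) ∧
    ∀ p : Fin (n + 3) → ℂ, IsConvexPolygon p → (∀ i, Irrational (ang p i / π)) →
      ∀ f : ℂ × ℝ → ℝ, Measurable f → IsInvariantFun p f →
        ∀ q ε C r : ℝ, 1 ≤ q → 0 < ε → 0 < r → Modulus p f q ε C r →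
          ∃ c : ℝ, ∀ᵐ x : ℂ × ℝ, x.1 ∈ region p → f x = c :=
  ⟨ae_irrational n, fun _ hp hirr _ hf hI q ε C r hq hε hr h =>
    const_of_mod hp hirr hf hI ⟨q, ε, C, r, hq, hε, hr, h⟩⟩

end Pool.Agent.Results.MP_7bc51d_an.DirectionalModulus
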