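import Pool.Agent.TH103.BL.Gen
import Pool.Agent.Q48.BL.Main

set_option autoImplicit false

/-!
# Billiards in convex polygons: a gap for the directional oscillation of invariant maps

Let `P` be a convex polygon. There is a function `Φ` with `Φ h / (h log (1 / h)) → ∞` as `h → 0`
such that the following holds for all measurable maps `f` of the state (position, direction) into
a second countable metric space which are invariant under the billiard flow. Suppose that, for
arbitrarily small `h`, turning all directions by `h` changes `f` by at most `Φ h` in the mean, the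
positions in the balls of some radius `r` about the points of some set `F` being left out; `F` and
`r` may depend on `h`, the distance of each point of `F` to the other points of `F` and to the
sides not containing it has to be at least `20 r`. Then `f` is a function of the direction, and
constant if some angle of `P` is not a rational multiple of `π` (all up to null sets). For almost
every polygon no angle is a rational multiple of `π`.
-/

namespace Pool.Agent.Results.MP_7bc51d_an.OscillationGap

open Pool.Agent.W780 Pool.Agent.W780.BB Pool.Agent.W780.PG MeasureTheory Filter Topology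
open Pool.Agent.TH103.BL Pool.Agent.Q48.BL

open scoped Real

theorem result (n : ℕ) :
    (∀ᵐ p : Fin (n + 3) → ℂ, IsConvexPolygon p → ∀ i, Irrational (ang p i / π)) ∧
    ∀ p : Fin (n + 3) → ℂ, IsConvexPolygon p →
      ∃ Φ : ℝ → ℝ, Tendsto (fun h => Φ h / (h * Real.log (1 / h))) (𝓝[>] 0) atTop ∧
        ∀ (Y : Type*) [MetricSpace Y] [SecondCountableTopology Y] [MeasurableSpace Y]
          [BorelSpace Y] (f : ℂ × ℝ → Y), Measurable f → IsInvariantMap p f →
          (∃ᶠ h : ℝ in 𝓝[>] 0, ∃ (F : Set ℂ) (r : ℝ), Small p F r ∧
            Osc p (Away F r) f h ≤ ENNReal.ofReal (Φ h)) →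
          (∃ g : ℝ → Y, Measurable g ∧ (∀ θ, g (θ + 2 * π) = g θ) ∧
            ∀ᵐ x : ℂ × ℝ, x ∈ phase p → f x = g x.2) ∧
          ((∃ i, Irrational (ang p i / π)) →
            ∃ y : Y, ∀ᵐ x : ℂ × ℝ, x ∈ phase p → f x = y) := by
  refine ⟨ae_irrational n, fun p hp => ?_⟩
  obtain ⟨Φ, h1, h2, h3⟩ := structure_slow hp
  refine ⟨Φ, h1, fun Y _ _ _ _ f hf hI hF => ?_⟩
  exact map_of_set hp h2 h3 hf hI (C := 1) (by simpa only [one_mul] using hF)

end Pool.Agent.Results.MP_7bc51d_an.OscillationGap
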