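import Pool.Agent.Q67.BP.Fin

set_option autoImplicit false

/-!
# Billiards in convex polygons: invariant functions of finite positional variation

Almost every convex polygon has only angles which are irrational multiples of `π`. In a convex polygon
of this kind consider an invariant function whose slices (the direction is fixed) have finite
variation, integrable over all directions, or jump along few lines only. It takes at most as many
values as there are vertices: near each vertex, almost every slice is constant, and the constant does
not depend on the direction, and there are no other values. Moreover the function is constant, or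
for all small `η` the set of directions in which the slice is not constant within `η` of the
vertices has measure more than `κ η`, where `κ > 0` depends only on the polygon.
-/

namespace Pool.Agent.Results.MP_7bc51d_an.PositionalVariation

open Pool.Agent.W780.PG Pool.Agent.W780.BB Pool.Agent.TH103.BL Pool.Agent.Q67.BP MeasureTheory

open scoped Real

theorem result (n : ℕ) :
    (∀ᵐ p : Fin (n + 3) → ℂ, IsConvexPolygon p → ∀ i, Irrational (ang p i / π)) ∧
    ∀ p : Fin (n + 3) → ℂ, IsConvexPolygon p → (∀ i, Irrational (ang p i / π)) →
      ∃ κ : ℝ, 0 < κ ∧ ∀ f : ℂ × ℝ → ℝ, Measurable f → IsInvariantFun p f →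
        (HasFiniteVariation p f ∨ HasFewJumps p f) →
        ∃ c : Fin (n + 3) → ℝ, (∀ᵐ x : ℂ × ℝ, x.1 ∈ region p → ∃ i, f x = c i) ∧
          (∀ i, ∀ᵐ θ : ℝ, ∃ ρ : ℝ, 0 < ρ ∧
            ∀ᵐ z : ℂ, z ∈ region p → ‖z - p i‖ < ρ → f (z, θ) = c i) ∧
          ((∀ᵐ x : ℂ × ℝ, x.1 ∈ region p → f x = c 0) ∨
            ∃ η₀ : ℝ, 0 < η₀ ∧ ∀ η : ℝ, 0 < η → η < η₀ →
              ENNReal.ofReal (κ * η) < volume (Cut p f η)) :=
  ⟨ae_irrational n, fun _ hp hirr => structure_thm hp hirr⟩

end Pool.Agent.Results.MP_7bc51d_an.PositionalVariation
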